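import Mathlib
import Pool.Agent.W_MP_ee40c7_co.Defs
import Pool.Agent.W_MP_ee40c7_co.Proof

open MeasureTheory Pool.Agent.W_MP_ee40c7_co

namespace Pool.Agent.Results.MP_ee40c7_co.ClusterDisproof

/-- For every `k ≥ 4` the answer to the question is negative: whenever `k - 2` does not divide
`n - 2`, the set `S_n` is not optimal. -/
theorem result (k : ℕ) (hk : 4 ≤ k) :
    (∀ n : ℕ, k ≤ n → ¬ (k - 2) ∣ (n - 2) →
      ∃ S : Finset (ℝ × ℝ), S.card = n ∧ ¬ Collinear ℝ (S : Set (ℝ × ℝ)) ∧ 0 < smallT k S ∧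
        bigT k S / smallT k S < bigT k (Sn n) / smallT k (Sn n)) ∧
    (∀ n : ℕ, k ≤ n → f k n ≤ (((n - 2) / (k - 2) : ℕ) : ℝ) ∧
      bigT k (Sn n) / smallT k (Sn n) = ((n : ℝ) - 2) / ((k : ℝ) - 2)) ∧
    ¬ ∃ N : ℕ, ∀ n : ℕ, N ≤ n → k ≤ n → f k n = bigT k (Sn n) / smallT k (Sn n) :=
  main k hk

end Pool.Agent.Results.MP_ee40c7_co.ClusterDisproof
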